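import Pool.Agent.W192.PP.DefsB

/-!
# Bad zeros versus small gaps (part PP-CNT)
-/

set_option autoImplicit false

open Complex Filter Topology Set

namespace Pool.Agent.W191.PP

open Pool.Agent.W192.PP

theorem t_cnt : S_cnt := by
  intro δ A B hδ hA hAB S hS
  classical
  set G : Set ℕ := {n : ℕ | 1 ≤ n ∧ A ≤ SG.ord n ∧ SG.ord (n + 1) ≤ B ∧
    SG.ord (n + 1) - SG.ord n ≤ δ} with hG
  have hGfin : G.Finite := by
    refine (Set.finite_Iic (SG.NZ B)).subset ?_
    rintro n ⟨hn, -, h, -⟩
    have := (SG.ord_le_iff (by omega : 1 ≤ n + 1) B).1 h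
    exact (by omega : n ≤ SG.NZ B)
  let m : ℝ → ℕ := fun y => ∑ s ∈ S.filter (fun s => s.im = y), SG.zmult s
  set Y : Finset ℝ := S.image Complex.im with hY
  have hYpos : ∀ y ∈ Y, 0 < y ∧ A + δ ≤ y ∧ y ≤ B := by
    intro y hy
    rw [hY, Finset.mem_image] at hy
    obtain ⟨s, hs, rfl⟩ := hy
    obtain ⟨h0, h1, h2, h3, h4, h5⟩ := hS s hs
    exact ⟨by linarith, h3, h4⟩
  have hjump : ∀ y ∈ Y, ∀ t < y, SG.NZ t + m y ≤ SG.NZ y := by
    intro y hy t ht
    refine SG.NZ_add_le t y ht.le _ ?_
    intro s hs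
    rw [Finset.mem_filter] at hs
    obtain ⟨h0, h1, h2, h3, h4, h5⟩ := hS s hs.1
    have := hYpos y hy
    refine ⟨⟨h0, h1, h2, by rw [hs.2]; exact this.1, hs.2.le⟩, by rw [hs.2]; exact ht⟩
  let J : ℝ → Finset ℕ := fun y => Finset.Ioc (SG.NZ y - m y) (SG.NZ y)
  have hJ : ∀ y ∈ Y, ∀ k ∈ J y, 1 ≤ k ∧ k ≤ SG.NZ y ∧ ∀ t < y, SG.NZ t < k := by
    intro y hy k hk
    have h1 : SG.NZ y - m y < k ∧ k ≤ SG.NZ y := Finset.mem_Ioc.1 hk
    refine ⟨by omega, h1.2, ?_⟩
    intro t ht
    have := hjump y hy t ht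
    omega
  have hord : ∀ y : ℝ, ∀ k : ℕ, 1 ≤ k → k ≤ SG.NZ y → (∀ t < y, SG.NZ t < k) → SG.ord k = y := by
    intro y k hk h1 h2
    apply le_antisymm ((SG.ord_le_iff hk y).2 h1)
    by_contra h
    push Not at h
    have h3 := h2 _ h
    have h4 := SG.le_NZ_ord hk
    omega
  have hcard : ∀ y ∈ Y, (J y).card = m y := by
    intro y hy
    have h1 := hjump y hy 0 (hYpos y hy).1
    have h2 : (J y).card = SG.NZ y - (SG.NZ y - m y) := Nat.card_Ioc _ _
    omega
  have hdisj : ∀ y ∈ Y, ∀ y' ∈ Y, y ≠ y' → Disjoint (J y) (J y') := by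
    intro y hy y' hy' hne
    rw [Finset.disjoint_left]
    intro k hk hk'
    obtain ⟨a1, a2, a3⟩ := hJ y hy k hk
    obtain ⟨b1, b2, b3⟩ := hJ y' hy' k hk'
    exact hne ((hord y k a1 a2 a3).symm.trans (hord y' k b1 b2 b3))
  have hsum : ∑ s ∈ S, SG.zmult s = (Y.biUnion J).card := by
    rw [Finset.card_biUnion hdisj, Finset.sum_congr rfl hcard]
    exact (Finset.sum_fiberwise_of_maps_to (fun s hs => Finset.mem_image_of_mem _ hs) _).symm
  -- every index is in `G` or the successor of an element of `G`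
  have hsub : Y.biUnion J ⊆ hGfin.toFinset ∪ hGfin.toFinset.image (fun n => n + 1) := by
    intro k hk
    rw [Finset.mem_biUnion] at hk
    obtain ⟨y, hy, hk⟩ := hk
    obtain ⟨a1, a2, a3⟩ := hJ y hy k hk
    have hok := hord y k a1 a2 a3
    obtain ⟨hy0, hyA, hyB⟩ := hYpos y hy
    have hy' := hy
    rw [hY, Finset.mem_image] at hy'
    obtain ⟨s, hs, hsy⟩ := hy'
    obtain ⟨h0, h1, h2, h3, h4, h5⟩ := hS s hs
    have him : 0 < s.im := by linarith
    have hpred : ∀ g : ℝ, A ≤ g → y - δ ≤ g → 2 ≤ k → (∀ t < g, SG.NZ t < k - 1) →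
        k ∈ hGfin.toFinset ∪ hGfin.toFinset.image (fun n => n + 1) := by
      intro g hg1 hg2 hk2 hlt
      rw [Finset.mem_union]
      right
      rw [Finset.mem_image]
      refine ⟨k - 1, ?_, by omega⟩
      rw [Set.Finite.mem_toFinset]
      have hg3 : g ≤ SG.ord (k - 1) := by
        by_contra h
        push Not at h
        have h3 := hlt _ h
        have h4 := SG.le_NZ_ord (by omega : 1 ≤ k - 1)
        omega
      have hk3 : k - 1 + 1 = k := by omega
      refine ⟨by omega, hg1.trans hg3, ?_, ?_⟩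
      · rw [hk3, hok]; exact hyB
      · rw [hk3, hok]; linarith
    have htwo : (∀ t < y, SG.NZ t + 2 ≤ SG.NZ y) →
        k ∈ hGfin.toFinset ∪ hGfin.toFinset.image (fun n => n + 1) := by
      intro h
      by_cases hkN : k + 1 ≤ SG.NZ y
      · rw [Finset.mem_union]
        left
        rw [Set.Finite.mem_toFinset]
        have hok1 : SG.ord (k + 1) = y :=
          hord y (k + 1) (by omega) hkN (fun t ht => (a3 t ht).trans (Nat.lt_succ_self k))
        refine ⟨a1, ?_, ?_, ?_⟩
        · rw [hok]; linarith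
        · rw [hok1]; exact hyB
        · rw [hok, hok1]; linarith
      · have hkE : k = SG.NZ y := by omega
        refine hpred y (by linarith) (by linarith) ?_ ?_
        · have := h 0 hy0
          omega
        · intro t ht
          have := h t ht
          omega
    rcases h5 with h5 | h5 | ⟨g, hg1, hg2, hg3⟩
    · apply htwo
      intro t ht
      rw [← hsy]
      rw [← hsy] at ht
      have hz := SG.zero_reflect h0 h1 h2 (by linarith)
      have him' : (1 - (starRingEnd ℂ) s).im = s.im := by simp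
      have hre' : (1 - (starRingEnd ℂ) s).re = 1 - s.re := by simp
      refine SG.jump_two h0 h1 h2 him hz (by rw [hre']; linarith) (by rw [hre']; linarith) him' ?_ t ht
      intro he
      have := congrArg Complex.re he
      rw [hre'] at this
      apply h5
      linarith
    · apply htwo
      intro t ht
      rw [← hsy]
      rw [← hsy] at ht
      have e1 := SG.jump_one h0 h1 h2 him t ht
      have e2 := SG.zmult_two him h0 h5
      omega
    · have hgA : A ≤ g := by linarith
      have hzg : ((1 / 2 : ℂ) + I * g).im = g := by simp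
      have hzr : ((1 / 2 : ℂ) + I * g).re = 1 / 2 := by simp
      have hpos : 0 < ((1 / 2 : ℂ) + I * g).im := by rw [hzg]; linarith
      have hj := SG.jump_one hg3 (by rw [hzr]; norm_num) (by rw [hzr]; norm_num) hpos
      have hp := SG.zmult_pos hpos hg3
      rw [hzg] at hj
      have hgk := a3 g (by rw [← hsy]; exact hg2)
      have hj0 := hj 0 (by linarith)
      refine hpred g hgA (by rw [← hsy]; exact hg1) (by omega) ?_
      intro t ht
      have := hj t ht
      omega
  rw [hsum]
  calc (Y.biUnion J).card ≤ (hGfin.toFinset ∪ hGfin.toFinset.image (fun n => n + 1)).card :=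
        Finset.card_le_card hsub
    _ ≤ hGfin.toFinset.card + (hGfin.toFinset.image (fun n => n + 1)).card :=
        Finset.card_union_le _ _
    _ ≤ hGfin.toFinset.card + hGfin.toFinset.card := by
        exact Nat.add_le_add_left Finset.card_image_le _
    _ = 2 * G.ncard := by
        rw [Set.ncard_eq_toFinset_card G hGfin]
        ring

end Pool.Agent.W191.PP
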